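import Mathlib
import Pool.Agent.Helper26.Bmoa.Suff2

set_option autoImplicit false

/-!
Random Steinhaus power series in BMOA (Q2 of MP_e603cf_an).

A necessary and sufficient condition, in terms of the moduli of the coefficients only, for the random
power series `f(z) = ∑ a_k e^{i α_k} z^k` with square summable coefficients and independent phases
`α_k` uniform on `[0, 2π]` to lie in BMOA almost surely, and the zero-one law.
-/

namespace Pool.Agent.Results.MP_e603cf_an.BMOACharacterization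

open MeasureTheory ProbabilityTheory Filter Topology

/-- the uniform distribution on `[0, 2π]` -/
noncomputable def unif : Measure ℝ :=
  (ENNReal.ofReal (2 * Real.pi))⁻¹ • volume.restrict (Set.Icc 0 (2 * Real.pi))

/-- the random power series `∑ a_k e^{i α_k(ω)} z^k` -/
noncomputable def series {Ω : Type*} (a : ℕ → ℂ) (α : ℕ → Ω → ℝ) (ω : Ω) (z : ℂ) : ℂ :=
  ∑' k, a k * Complex.exp (Complex.I * α k ω) * z ^ k

/-- the mean of `g` over `[a, b]` -/
noncomputable def mean (g : ℝ → ℂ) (a b : ℝ) : ℂ := (((b - a)⁻¹ : ℝ) : ℂ) * ∫ t in a..b, g t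

/-- `g`, regarded as a function on the circle, has bounded mean oscillation -/
def IsBMO (g : ℝ → ℂ) : Prop := ∃ C : ℝ, ∀ a b : ℝ, a < b → b - a ≤ 2 * Real.pi →
  (b - a)⁻¹ * ∫ t in a..b, ‖g t - mean g a b‖ ≤ C

/-- `F` belongs to BMOA: it is analytic in the unit disc, it is in the Hardy space `H²`, and its
boundary function `g` on the unit circle (the limit in mean square of `F(r e^{it})` as `r → 1-`) has
bounded mean oscillation. -/
structure InBMOA (F : ℂ → ℂ) : Prop where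
  analytic : DifferentiableOn ℂ F (Metric.ball 0 1)
  hardy : ∃ M : ℝ, ∀ r : ℝ, 0 ≤ r → r < 1 →
    ∫ t in (0:ℝ)..(2 * Real.pi), ‖F (r * Complex.exp (Complex.I * t))‖ ^ 2 ≤ M
  boundary : ∃ g : ℝ → ℂ, Function.Periodic g (2 * Real.pi) ∧
    MemLp g 2 (volume.restrict (Set.Ioc 0 (2 * Real.pi))) ∧
    Tendsto (fun r : ℝ => ∫ t in (0:ℝ)..(2 * Real.pi), ‖F (r * Complex.exp (Complex.I * t)) - g t‖ ^ 2)
      (𝓝[<] 1) (𝓝 0) ∧ IsBMO g

/-- For a sequence of masses `μ_k ≥ 0`: the square of the translation invariant distance from `0` to `t`,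
`∑ μ_k |e^{ikt} - 1|²`. -/
noncomputable def dist2 (μ : ℕ → ℝ) (t : ℝ) : ℝ :=
  ∑' k : ℕ, μ k * ‖Complex.exp (Complex.I * (k * t)) - 1‖ ^ 2

/-- The least `ε ≥ 0` such that the ball of radius `ε` about `0` occupies at least the proportion
`2 ^ (-2 ^ p)` of the circle `[0, 2π]`. -/
noncomputable def radius (μ : ℕ → ℝ) (p : ℕ) : ℝ :=
  sInf {ε : ℝ | 0 ≤ ε ∧ ENNReal.ofReal (2 * Real.pi * (1 / 2) ^ (2 ^ p)) ≤
    volume {t : ℝ | t ∈ Set.Icc 0 (2 * Real.pi) ∧ dist2 μ t ≤ ε ^ 2}}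

/-- The condition. The entropy integrals `∑_p 2^(p/2) radius μ p` of the metrics with masses
`μ_k = q_{⌊k/2^n⌋} |a_k|²` are bounded uniformly in the dyadic level `n ≥ 0` and in the weights
`q_1, q_2, ... ≥ 0` with `∑ q_j ≤ 1` (and `q_0 = 0`). -/
def Cond (a : ℕ → ℂ) : Prop := ∃ K : ℝ, ∀ (n : ℕ) (q : ℕ → ℝ), (∀ j, 0 ≤ q j) → q 0 = 0 → Summable q →
  ∑' j, q j ≤ 1 →
  ∀ P : ℕ, ∑ p ∈ Finset.range P, √(2 ^ p) * radius (fun k => q (k / 2 ^ n) * ‖a k‖ ^ 2) p ≤ K

/-- **Characterisation of the coefficients of random power series in BMOA.** Let `∑ |a_k|² < ∞` and let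
`α_k` be independent and uniform on `[0, 2π]`. If `Cond a` holds then `∑ a_k e^{i α_k} z^k` is in BMOA
almost surely, and if it does not hold then the series is almost surely not in BMOA. -/
theorem result (a : ℕ → ℂ) (ha : Summable fun k => ‖a k‖ ^ 2)
    {Ω : Type*} [MeasurableSpace Ω] (P : Measure Ω) [IsProbabilityMeasure P]
    (α : ℕ → Ω → ℝ) (hα : ∀ k, Measurable (α k)) (hind : iIndepFun α P)
    (hunif : ∀ k, P.map (α k) = unif) :
    ((∀ᵐ ω ∂P, InBMOA (series a α ω)) ↔ Cond a) ∧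
      (¬ Cond a → ∀ᵐ ω ∂P, ¬ InBMOA (series a α ω)) := by
  have conv : ∀ F : ℂ → ℂ, Pool.Agent.Helper26.Bmoa.Stmt.InBMOA F ↔ InBMOA F := fun F =>
    ⟨fun h => ⟨h.analytic, h.hardy, h.boundary⟩, fun h => ⟨h.analytic, h.hardy, h.boundary⟩⟩
  have key := Pool.Agent.Helper26.Bmoa.Stmt.main a ha P α hα hind hunif
  simp only [conv] at key
  obtain ⟨h1, h2⟩ := key
  have h2' : ¬ Cond a → ∀ᵐ ω ∂P, ¬ InBMOA (series a α ω) := h2
  refine ⟨⟨fun h => ?_, h1⟩, h2'⟩
  by_contra hn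
  have h3 := h2' hn
  have h4 : ∀ᵐ _ω ∂P, False := by
    filter_upwards [h, h3] with ω h5 h6
    exact h6 h5
  rw [ae_iff] at h4
  simp at h4

end Pool.Agent.Results.MP_e603cf_an.BMOACharacterization
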